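import Mathlib
import Pool.Agent.MP_44674b_co.Defs
import Pool.Agent.MP_44674b_co.Tree

open Pool.Agent.MP_44674b_co

/-- The `d`-class scheme on `∏ i, Fin (n i)` in which `(x, y)` lies in `R_0 ∪ ... ∪ R_s` exactly
when `x` and `y` agree in the first `d - s` coordinates is exactly triply regular, and it is
formally self-dual if and only if `(n 0, ..., n (d - 1))` is a palindrome. -/
theorem Pool.Agent.Results.MP_44674b_co.JaegerYes.result (d : ℕ) (n : Fin d → ℕ)
    (hn : ∀ i, 2 ≤ n i) :
    ∃ S : SymScheme ((i : Fin d) → Fin (n i)) d,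
      (∀ x y (s : Fin (d + 1)), S.rel x y ≤ s ↔ ∀ i : Fin d, i.val + s.val < d → x i = y i) ∧
      S.ExactlyTriplyRegular ∧ (S.FormallySelfDual ↔ ∀ i, n i = n i.rev) :=
  tree_theorem d n hn
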